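import Pool.Agent.H84.OpenCpt

namespace Pool.Agent.Results.MP_a57f84_gt.Q1No

universe u

theorem result : ∃ (Y : Type) (_ : TopologicalSpace Y), T2Space Y ∧
    (∀ 𝒰 : Set (Set Y), (∀ U ∈ 𝒰, IsOpen U) → ⋃₀ 𝒰 = Set.univ →
      ∃ 𝒱 : Set (Set Y), (∀ V ∈ 𝒱, IsOpen V) ∧ ⋃₀ 𝒱 = Set.univ ∧ (∀ V ∈ 𝒱, ∃ U ∈ 𝒰, V ⊆ U) ∧
        ∀ y, {V ∈ 𝒱 | y ∈ V}.Finite) ∧
    ∀ (X : Type u) [TopologicalSpace X] [T2Space X] [ParacompactSpace X] (f : X → Y),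
      ¬ (Continuous f ∧ Function.Surjective f ∧ IsOpenMap f ∧ ∀ y, IsCompact (f ⁻¹' {y})) :=
  ⟨Pool.Agent.H84.OpenCpt.Y, inferInstance, inferInstance, Pool.Agent.H84.OpenCpt.metacompact,
    fun X _ _ _ f h => Pool.Agent.H84.OpenCpt.not_image X f h.1 h.2.1 h.2.2.1 h.2.2.2⟩

end Pool.Agent.Results.MP_a57f84_gt.Q1No
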